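import Mathlib
import Pool.Agent.Helper27.Cp.P_final

/-!
# Squares of Lindelöf function spaces `C_p(X, 2)`

There is (in ZFC) a zero-dimensional Tychonoff space `X` such that `C_p(X, {0,1})` is Lindelöf while
its square is not Lindelöf, not metacompact and not subparacompact.
-/

set_option autoImplicit false

namespace Pool.Agent.Results.MP_ad67b9_gt.SquareNotMetacompact

/-- A space is metacompact if every open cover has a point-finite open refinement. -/
def Metacompact (P : Type) [TopologicalSpace P] : Prop :=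
  ∀ 𝒰 : Set (Set P), (∀ U ∈ 𝒰, IsOpen U) → ⋃₀ 𝒰 = Set.univ →
    ∃ 𝒱 : Set (Set P), (∀ V ∈ 𝒱, IsOpen V) ∧ ⋃₀ 𝒱 = Set.univ ∧ (∀ V ∈ 𝒱, ∃ U ∈ 𝒰, V ⊆ U) ∧
      ∀ p, {V | V ∈ 𝒱 ∧ p ∈ V}.Finite

/-- A space is subparacompact if every open cover has a σ-discrete closed refinement: a sequence
`ℋ n` of discrete families of closed sets, each inside a member of the cover, whose union covers. -/
def Subparacompact (P : Type) [TopologicalSpace P] : Prop :=
  ∀ 𝒰 : Set (Set P), (∀ U ∈ 𝒰, IsOpen U) → ⋃₀ 𝒰 = Set.univ →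
    ∃ ℋ : ℕ → Set (Set P), (∀ n, ∀ H ∈ ℋ n, IsClosed H ∧ ∃ U ∈ 𝒰, H ⊆ U) ∧
      (⋃ n, ⋃₀ ℋ n) = Set.univ ∧
      ∀ n p, ∃ O, IsOpen O ∧ p ∈ O ∧ {H | H ∈ ℋ n ∧ (H ∩ O).Nonempty}.Subsingleton

/-- There is a zero-dimensional (Tychonoff) space `X` such that `C_p(X, {0,1})` (the continuous maps
`X → {0,1}` with the topology of pointwise convergence) is Lindelöf while its square is not
Lindelöf, not metacompact and not subparacompact. -/
theorem result : ∃ (X : Type) (_ : TopologicalSpace X), T35Space X ∧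
    TopologicalSpace.IsTopologicalBasis {s : Set X | IsClopen s} ∧
    LindelofSpace {f : X → Bool // Continuous f} ∧
    ¬ LindelofSpace ({f : X → Bool // Continuous f} × {f : X → Bool // Continuous f}) ∧
    ¬ Metacompact ({f : X → Bool // Continuous f} × {f : X → Bool // Continuous f}) ∧
    ¬ Subparacompact ({f : X → Bool // Continuous f} × {f : X → Bool // Continuous f}) :=
  CpM.final

end Pool.Agent.Results.MP_ad67b9_gt.SquareNotMetacompact
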